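import Pool.Agent.Work.MP_d70a14_gt.Base

/-! # Optical fibers: definitions

`E` is the space, `P2` the plane.  A body is an open connected bounded set `V` whose boundary consists of
two plane figures, the ends `ι i '' K i` (`i : Bool`), and of the wall, a surface of class `C^2`.
Light rays start at a point with a velocity; `Flow V W k x v t y w` says that the ray which starts at
`x` with velocity `v` has at time `t`, after exactly `k` reflections at the wall `W`, the position `y`
and the velocity `w`. -/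

open MeasureTheory Set Metric Filter Topology
open scoped RealInnerProductSpace ContDiff ENNReal

noncomputable section

namespace Pool.Agent.Work.MP_d70a14_gt

/-- `V` is a body with the two ends `ι i '' K i`: plane figures (compact, closure of the interior, with
boundary of area zero), near every interior point of which `V` is on one side of the plane; all other
boundary points belong to the wall, a surface of class `C^2` -/
structure Body (V : Set E) (K : Bool → Set P2) (ι : Bool → P2 →ᵃⁱ[ℝ] E) : Prop where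
  isOpen : IsOpen V
  isConnected : IsConnected V
  isBounded : Bornology.IsBounded V
  compact : ∀ i, IsCompact (K i)
  regular : ∀ i, closure (interior (K i)) = K i
  null : ∀ i, volume (frontier (K i)) = 0
  one_side : ∀ i, ∀ y ∈ interior (K i), ∃ n : E, ‖n‖ = 1 ∧ (∀ z, ⟪ι i z - ι i y, n⟫ = 0) ∧
    ∃ r > 0, ∀ x ∈ ball (ι i y) r, (x ∈ V ↔ 0 < ⟪x - ι i y, n⟫)
  disj : Disjoint (ι false '' interior (K false)) (ι true '' interior (K true))
  wall : ∀ p ∈ frontier V, (∀ i, p ∉ ι i '' K i) → ∃ n, InnerNormal V p n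

/-- the wall: the boundary without the ends -/
def Wall (V : Set E) (K : Bool → Set P2) (ι : Bool → P2 →ᵃⁱ[ℝ] E) : Set E :=
  frontier V \ ⋃ i, ι i '' K i

/-- an optical fiber: almost every light ray which enters through one end leaves through the other
end, and almost every light ray which starts inside leaves through one of the ends -/
structure OpticalFiber (V : Set E) (K : Bool → Set P2) (ι : Bool → P2 →ᵃⁱ[ℝ] E) : Prop
    extends Body V K ι where
  through : ∀ i, ∀ᵐ q : P2 × E, q.1 ∈ interior (K i) →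
    (∃ n, InnerNormal V (ι i q.1) n ∧ 0 < ⟪q.2, n⟫) →
    Leaves V (Wall V K ι) (ι (!i) '' interior (K (!i))) (ι i q.1) q.2
  out : ∀ᵐ q : E × E, q.1 ∈ V → ∃ i, Leaves V (Wall V K ι) (ι i '' interior (K i)) q.1 q.2

/-- the rays (position in `V` and velocity) which leave through the end `i` -/
def Dset (V : Set E) (K : Bool → Set P2) (ι : Bool → P2 →ᵃⁱ[ℝ] E) (i : Bool) : Set (E × E) :=
  {q | q.1 ∈ V ∧ Leaves V (Wall V K ι) (ι i '' interior (K i)) q.1 q.2}

/-- the rays which came from the end `i` -/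
def Cset (V : Set E) (K : Bool → Set P2) (ι : Bool → P2 →ᵃⁱ[ℝ] E) (i : Bool) : Set (E × E) :=
  {q | (q.1, -q.2) ∈ Dset V K ι i}

/-- the times at which the ray is inside `V` and has not left before -/
def Live (V W : Set E) (y u : E) : Set ℝ := {t | ∃ k x v, x ∈ V ∧ Flow V W k y u t x v}

open Classical in
/-- the state of the ray at the time `t` -/
def st (V W : Set E) (y u : E) (t : ℝ) : E × E :=
  if h : ∃ q : E × E, ∃ k, q.1 ∈ V ∧ Flow V W k y u t q.1 q.2 then h.choose else (0, 0)

/-- the rate of change of `f` along the ray -/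
def rate (f : E → ℝ) (q : E × E) : ℝ := ⟪gradient f q.1, q.2⟫

/-- almost all rays with `rate f > 0` came from the end `false`, and almost no ray with `rate f < 0` -/
def Half (V : Set E) (K : Bool → Set P2) (ι : Bool → P2 →ᵃⁱ[ℝ] E) (f : E → ℝ) : Prop :=
  ∀ᵐ q : E × E, q.1 ∈ V → ‖q.2‖ < 1 →
    (0 < rate f q → q ∈ Cset V K ι false) ∧ (rate f q < 0 → q ∉ Cset V K ι false)

/-- data of a sweep out: `f` is a function of class `C^2` near `closure V` without critical points, `0` on the
end `false`, `1` on the end `true`, and between `0` and `1` elsewhere, with flat level surfaces (`lev`, `flat`)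
which are orthogonal to the wall (`tan`); `X` is a smooth vector field with compact support which is
`∇f / |∇f|^2` near `closure V`, and `γ` is its flow -/
structure Sweep (V : Set E) (K : Bool → Set P2) (ι : Bool → P2 →ᵃⁱ[ℝ] E) (f : E → ℝ) (X : E → E)
    (γ : ℝ → E → E) : Prop where
  body : Body V K ι
  smooth : ∃ U, IsOpen U ∧ closure V ⊆ U ∧ ContDiffOn ℝ 2 f U
  end0 : ∀ y ∈ K false, f (ι false y) = 0
  end1 : ∀ y ∈ K true, f (ι true y) = 1
  mid : ∀ x ∈ closure V, (∀ i, x ∉ ι i '' K i) → 0 < f x ∧ f x < 1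
  crit : ∀ x ∈ closure V, gradient f x ≠ 0
  tan : ∀ p ∈ Wall V K ι, ∀ n, InnerNormal V p n → ⟪gradient f p, n⟫ = 0
  lev : ∀ x y, segment ℝ x y ⊆ V → f x = f y → ⟪gradient f x, y - x⟫ = 0
  flat : ∀ x y, segment ℝ x y ⊆ V → ⟪gradient f x, y - x⟫ = 0 → f y = f x
  X_smooth : ContDiff ℝ 1 X
  X_supp : HasCompactSupport X
  X_eq : ∃ O, IsOpen O ∧ closure V ⊆ O ∧ ∀ x ∈ O, X x = (‖gradient f x‖ ^ 2)⁻¹ • gradient f x
  flow_zero : ∀ x, γ 0 x = x
  flow_deriv : ∀ x t, HasDerivAt (fun t => γ t x) (X (γ t x)) t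
  flow_add : ∀ s t x, γ s (γ t x) = γ (s + t) x
  flow_cont : Continuous fun p : ℝ × E => γ p.1 p.2

/-- the point of the end `i` to which the flow moves `z` -/
def kap (ι : Bool → P2 →ᵃⁱ[ℝ] E) (f : E → ℝ) (γ : ℝ → E → E) (i : Bool) (z : E) : P2 :=
  Function.invFun (ι i) (γ ((if i then 1 else 0) - f z) z)

/-- rotation by the angle `θ` about the axis through `c` in the direction `b 2` -/
def rot (c : E) (b : OrthonormalBasis (Fin 3) ℝ E) (θ : ℝ) (x : E) : E :=
  c + (Real.cos θ * ⟪b 0, x - c⟫ - Real.sin θ * ⟪b 1, x - c⟫) • b 0 +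
    (Real.sin θ * ⟪b 0, x - c⟫ + Real.cos θ * ⟪b 1, x - c⟫) • b 1 + ⟪b 2, x - c⟫ • b 2

/-- angular momentum about the axis -/
def ang (c : E) (b : OrthonormalBasis (Fin 3) ℝ E) (q : E × E) : ℝ :=
  ⟪b 0, q.1 - c⟫ * ⟪b 1, q.2⟫ - ⟪b 1, q.1 - c⟫ * ⟪b 0, q.2⟫

/-- square of the distance to the axis -/
def rad2 (c : E) (b : OrthonormalBasis (Fin 3) ℝ E) (x : E) : ℝ :=
  ⟪b 0, x - c⟫ ^ 2 + ⟪b 1, x - c⟫ ^ 2

end Pool.Agent.Work.MP_d70a14_gt

end
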