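import Pool.Agent.Work.MP_d70a14_gt.Std
import Pool.Agent.Work.MP_d70a14_gt.Defs

/-! # Comparison of the two forms of the definitions -/

open MeasureTheory Set Metric Filter Topology
open scoped RealInnerProductSpace ContDiff ENNReal

noncomputable section

namespace Pool.Agent.Work.MP_d70a14_gt

theorem Fiber.toOptical {V : Set E} {a : Bool → P2 → E} {K : Bool → Set P2} (h : Fiber V a K) :
    ∃ ι : Bool → P2 →ᵃⁱ[ℝ] E, (a = fun i => ⇑(ι i)) ∧ OpticalFiber V K ι := by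
  obtain ⟨⟨⟨h1, h2, h3⟩, h4, h5, h6⟩, h7, h8⟩ := h
  set ι : Bool → P2 →ᵃⁱ[ℝ] E := fun i => (h4 i).1.affineIsometryOfStrictConvexSpace with hι
  have ha : a = fun i => ⇑(ι i) := by
    funext i
    exact ((h4 i).1.coe_affineIsometryOfStrictConvexSpace).symm
  refine ⟨ι, ha, ?_⟩
  clear_value ι
  subst ha
  refine ⟨⟨h1, h2, h3, fun i => (h4 i).2.1.1, fun i => (h4 i).2.1.2.1, fun i => (h4 i).2.1.2.2,
    fun i y hy => (h4 i).2.2 y hy, h5, ?_⟩, h7, h8⟩
  intro p hp hpi
  refine h6 p ⟨hp, ?_⟩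
  rw [mem_iUnion, not_exists]
  exact hpi

theorem forward_iff {V : Set E} {K : Bool → Set P2} {ι : Bool → P2 →ᵃⁱ[ℝ] E} {f : E → ℝ} :
    Forward V (fun i => ⇑(ι i)) K false f ↔
      ∀ᵐ q : E × E, q ∈ Cset V K ι false → 0 ≤ rate f q := by
  constructor
  · intro h
    unfold Forward at h
    filter_upwards [h] with q hq hC
    exact hq hC.1 hC.2
  · intro h
    unfold Forward
    filter_upwards [h] with q hq hV hL
    exact hq ⟨hV, hL⟩

end Pool.Agent.Work.MP_d70a14_gt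

end
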