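import Mathlib

/-! # Light rays

Light rays start at a point with a velocity; `Flow V W k x v t y w` says that the ray which starts at
`x` with velocity `v` has at time `t`, after exactly `k` reflections at the wall `W`, the position `y`
and the velocity `w`. -/

open MeasureTheory Set Metric Filter Topology
open scoped RealInnerProductSpace ContDiff ENNReal

noncomputable section

namespace Pool.Agent.Work.MP_d70a14_gt

/-- space -/
abbrev E := EuclideanSpace ℝ (Fin 3)

/-- plane -/
abbrev P2 := EuclideanSpace ℝ (Fin 2)

/-- near the boundary point `p` the boundary of `V` is a surface of class `C^2`, `V` lies on one side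
of it, and `n` is its inner unit normal at `p` -/
def InnerNormal (V : Set E) (p n : E) : Prop :=
  ‖n‖ = 1 ∧ ∃ ρ : E → ℝ, ContDiffAt ℝ 2 ρ p ∧ ρ p = 0 ∧ (∃ c : ℝ, 0 < c ∧ gradient ρ p = c • n) ∧
    ∀ᶠ x in 𝓝 p, (x ∈ V ↔ 0 < ρ x)

/-- the velocity after the reflection at a mirror with unit normal `n` -/
def mirror (n v : E) : E := v - (2 * ⟪v, n⟫) • n

/-- the light ray which starts at `x` with the velocity `v` has at the time `t > 0` the position `y` and
the velocity `w`; before this time it was inside `V` except for exactly `k` reflections at `W`, all of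
them with velocities not tangent to `W` -/
inductive Flow (V W : Set E) : ℕ → E → E → ℝ → E → E → Prop
  | free {x v : E} {t : ℝ} (ht : 0 < t) (h : ∀ s, 0 < s → s < t → x + s • v ∈ V) :
      Flow V W 0 x v t (x + t • v) v
  | refl {k : ℕ} {x v : E} {t : ℝ} {n : E} {t' : ℝ} {y w : E} (ht : 0 < t)
      (h : ∀ s, 0 < s → s < t → x + s • v ∈ V) (hW : x + t • v ∈ W)
      (hn : InnerNormal V (x + t • v) n) (hv : ⟪v, n⟫ ≠ 0)
      (hF : Flow V W k (x + t • v) (mirror n v) t' y w) : Flow V W (k + 1) x v (t + t') y w

/-- the light ray which starts at `x` with velocity `v` leaves `V` through `G`, not tangentially, after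
finitely many reflections -/
def Leaves (V W G : Set E) (x v : E) : Prop :=
  ∃ (k : ℕ) (t : ℝ) (y w n : E), Flow V W k x v t y w ∧ y ∈ G ∧ InnerNormal V y n ∧ ⟪w, n⟫ ≠ 0

end Pool.Agent.Work.MP_d70a14_gt

end
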