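import Pool.Agent.Work.MP_d70a14_gt.C.Sweep
import Pool.Agent.Work.MP_d70a14_gt.C.Mono
import Pool.Agent.Work.MP_d70a14_gt.D.Forward
import Pool.Agent.Work.MP_d70a14_gt.D.WallTan
import Pool.Agent.Work.MP_d70a14_gt.D.Field
import Pool.Agent.Work.MP_d70a14_gt.D.GlobalFlow
import Pool.Agent.Work.MP_d70a14_gt.D.Congr
import Pool.Agent.Work.MP_d70a14_gt.S.Final

/-! # Assembly -/

open MeasureTheory Set Metric Filter Topology
open scoped RealInnerProductSpace ContDiff ENNReal

noncomputable section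

namespace Pool.Agent.Work.MP_d70a14_gt

theorem congr_of_half {V : Set E} {K : Bool → Set P2} {ι : Bool → P2 →ᵃⁱ[ℝ] E}
    (hb : Body V K ι) {U : Set E} (hU : IsOpen U) (hVU : closure V ⊆ U) {f : E → ℝ}
    (hf : ContDiffOn ℝ 2 f U) (h0 : ∀ y ∈ K false, f (ι false y) = 0)
    (h1 : ∀ y ∈ K true, f (ι true y) = 1) (hcrit : ∀ x ∈ closure V, gradient f x ≠ 0)
    (hmid : ∀ x ∈ closure V, (∀ i, x ∉ ι i '' K i) → 0 < f x ∧ f x < 1)
    (h : Half V K ι f) : ∃ M : E ≃ᵢ E, M '' (ι false '' K false) = ι true '' K true := by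
  have hf1 : ContDiffOn ℝ 1 f U := hf.of_le (by norm_num)
  have hcompact : IsCompact (closure V) := hb.isBounded.isCompact_closure
  obtain ⟨X, hX, hXs, O, hO, hVO, hXO⟩ := exists_field hcompact hU hVU hf hcrit
  obtain ⟨γ, g0, gd, ga, gc⟩ := exists_flow hX hXs
  have hcrit' : ∀ x ∈ V, gradient f x ≠ 0 := fun x hx => hcrit x (subset_closure hx)
  have hS : Sweep V K ι f X γ :=
    { body := hb
      smooth := ⟨U, hU, hVU, hf⟩
      end0 := h0
      end1 := h1
      mid := hmid
      crit := hcrit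
      tan := fun p hp n hn => tan_of_half hb hU hVU hf1 h hp hn
      lev := fun x y hs hxy => lev_of_half hb hU hVU hf1 hcrit' h hs hxy
      flat := fun x y hs hxy => flat_of_half hb hU hVU hf1 hcrit' h hs hxy
      X_smooth := hX
      X_supp := hXs
      X_eq := ⟨O, hO, hVO, hXO⟩
      flow_zero := g0
      flow_deriv := gd
      flow_add := ga
      flow_cont := gc }
  exact hS.congruent

end Pool.Agent.Work.MP_d70a14_gt

end
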