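import Pool.Agent.Work.MP_d70a14_gt.Base

/-! # Optical fibers: the definitions of the final statements

The ends are given by isometric maps `a i : P2 → E` (`i : Bool`) and plane figures `K i`. -/

open MeasureTheory Set Metric Filter Topology
open scoped RealInnerProductSpace ContDiff ENNReal

noncomputable section

namespace Pool.Agent.Work.MP_d70a14_gt

/-- a plane figure: compact, closure of its interior, with boundary of area zero -/
def PlaneFigure (S : Set P2) : Prop :=
  IsCompact S ∧ closure (interior S) = S ∧ volume (frontier S) = 0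

/-- near the point `a y` the set `V` is one side of the plane `a(P2)` -/
def OneSided (V : Set E) (a : P2 → E) (y : P2) : Prop :=
  ∃ n : E, ‖n‖ = 1 ∧ (∀ z, ⟪a z - a y, n⟫ = 0) ∧
    ∃ r > 0, ∀ x ∈ ball (a y) r, (x ∈ V ↔ 0 < ⟪x - a y, n⟫)

/-- `a(S)` is an end of `V` -/
def IsEnd (V : Set E) (a : P2 → E) (S : Set P2) : Prop :=
  Isometry a ∧ PlaneFigure S ∧ ∀ y ∈ interior S, OneSided V a y

/-- the wall: the boundary without the ends -/
def wall (V : Set E) (a : Bool → P2 → E) (K : Bool → Set P2) : Set E :=
  frontier V \ ⋃ i, a i '' K i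

/-- `V` is an open connected bounded set whose boundary consists of the two ends and of a surface of
class `C^2` -/
def FiberBody (V : Set E) (a : Bool → P2 → E) (K : Bool → Set P2) : Prop :=
  (IsOpen V ∧ IsConnected V ∧ Bornology.IsBounded V) ∧ (∀ i, IsEnd V (a i) (K i)) ∧
    Disjoint (a false '' interior (K false)) (a true '' interior (K true)) ∧
    ∀ p ∈ wall V a K, ∃ n, InnerNormal V p n

/-- the ray which starts at `x` with velocity `v` leaves `V` through the interior of the end `i` -/
def LeavesEnd (V : Set E) (a : Bool → P2 → E) (K : Bool → Set P2) (i : Bool) (x v : E) : Prop :=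
  Leaves V (wall V a K) (a i '' interior (K i)) x v

/-- almost every ray which enters through an end leaves through the other end -/
def Through (V : Set E) (a : Bool → P2 → E) (K : Bool → Set P2) : Prop :=
  ∀ i, ∀ᵐ q : P2 × E, q.1 ∈ interior (K i) →
    (∃ n, InnerNormal V (a i q.1) n ∧ 0 < ⟪q.2, n⟫) → LeavesEnd V a K (!i) (a i q.1) q.2

/-- almost every ray which starts inside leaves through one of the ends -/
def Out (V : Set E) (a : Bool → P2 → E) (K : Bool → Set P2) : Prop :=
  ∀ᵐ q : E × E, q.1 ∈ V → ∃ i, LeavesEnd V a K i q.1 q.2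

/-- optical fibers -/
def Fiber (V : Set E) (a : Bool → P2 → E) (K : Bool → Set P2) : Prop :=
  FiberBody V a K ∧ Through V a K ∧ Out V a K

/-- the area of a plane figure -/
def area (S : Set P2) : ℝ := (volume S).toReal

/-- the integral of `|∇f|` over `V` -/
def gradInt (V : Set E) (f : E → ℝ) : ℝ := ∫ x in V, ‖gradient f x‖

/-- `f` does not decrease along almost every light ray of `V` which came from the end `i` -/
def Forward (V : Set E) (a : Bool → P2 → E) (K : Bool → Set P2) (i : Bool) (f : E → ℝ) : Prop :=
  ∀ᵐ q : E × E, q.1 ∈ V → LeavesEnd V a K i q.1 (-q.2) → 0 ≤ ⟪gradient f q.1, q.2⟫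

/-- `f` has no critical points on `closure V` and is between `0` and `1` off the ends -/
def Regular (V : Set E) (a : Bool → P2 → E) (K : Bool → Set P2) (f : E → ℝ) : Prop :=
  (∀ x ∈ closure V, gradient f x ≠ 0) ∧
    ∀ x ∈ closure V, (∀ i, x ∉ a i '' K i) → 0 < f x ∧ f x < 1

/-- some isometry of the space maps `S` onto `T` -/
def Congruent (S T : Set E) : Prop := ∃ M : E ≃ᵢ E, M '' S = T

end Pool.Agent.Work.MP_d70a14_gt

end
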